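import Pool.Agent.U288.RO.M5

/-!
# Prime tuples of one colour for all the dilates and reflections of a pattern: the right order of magnitude

However the numbers are coloured with `r` colours: a positive proportion of the patterns
`0 = h 0 < h 1 < ... < h k ≤ D` all of whose distances `h j - h i` are shifted primes are such that for every
integer `l ≠ 0`, `|l| ≤ L`, and every subset `T` of the pattern the number of `m ≤ x` such that all the numbers
`m + l t`, `t ∈ T`, are primes of one colour has the right order of magnitude in the conjecture of Hardy and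
Littlewood, for all `D` between `log x (log log x) ^ B` and any power of `log x`.
-/

set_option autoImplicit false

open Finset Filter

namespace Pool.Agent.Results.MP_e87c7d_nt.EveryDilateAndReflection

open Classical in
/-- the number of `1 ≤ m ≤ x` for which all `m + l t`, `t ∈ T`, are primes of the same colour -/
noncomputable def count {r : ℕ} (f : ℕ → Fin r) (l : ℤ) (x : ℝ) (T : Finset ℕ) : ℕ :=
  ((Icc 1 ⌊x⌋₊).filter (fun m : ℕ => (∀ t ∈ T, ((m : ℤ) + l * (t : ℤ)).toNat.Prime) ∧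
    ∃ c, ∀ t ∈ T, f ((m : ℤ) + l * (t : ℤ)).toNat = c)).card

/-- the number of residue classes modulo `p` occupied by `T` -/
def nu (T : Finset ℕ) (p : ℕ) : ℕ := (T.image (· % p)).card

/-- the factor at `p` of the singular series -/
noncomputable def loc (T : Finset ℕ) (p : ℕ) : ℝ :=
  (1 - (nu T p : ℝ) / p) / (1 - 1 / (p : ℝ)) ^ T.card

/-- the singular series of `T` -/
noncomputable def 𝔖 (T : Finset ℕ) : ℝ := ∏' p : Nat.Primes, loc T p

/-- the set `|l| T` -/
def dilate (l : ℤ) (T : Finset ℕ) : Finset ℕ := T.image (fun t => l.natAbs * t)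

open Classical in
/-- the vectors `0 = h 0 < h 1 < ... < h k ≤ D`; if `σ ≠ 0`, those with `h j - h i + σ` prime for all `i < j` -/
noncomputable def patterns (k : ℕ) (σ : ℤ) (D : ℝ) : Finset (Fin (k + 1) → ℕ) :=
  (Fintype.piFinset (fun _ : Fin (k + 1) => range (⌊D⌋₊ + 1))).filter (fun h => h 0 = 0 ∧ StrictMono h ∧
    ∀ i j, i < j → σ ≠ 0 → ((h j : ℤ) - h i + σ).toNat.Prime)

/-- the number of the conditions -/
def edges (k : ℕ) (σ : ℤ) : ℕ := if σ = 0 then 0 else k * (k + 1) / 2

open Classical in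
/-- the patterns such that for all integers `l ≠ 0` with `|l| ≤ L` and every nonempty subset `T` of `{h 0, ..., h k}`
the singular series of `|l| T` is positive and `count f l x T ≥ κ 𝔖(|l| T) x / (log x) ^ |T|` -/
noncomputable def good {r : ℕ} (f : ℕ → Fin r) (k : ℕ) (σ : ℤ) (L : ℕ) (D x κ : ℝ) : Finset (Fin (k + 1) → ℕ) :=
  (patterns k σ D).filter (fun h => ∀ l : ℤ, l ≠ 0 → l.natAbs ≤ L → ∀ I : Finset (Fin (k + 1)), I.Nonempty →
    0 < 𝔖 (dilate l (I.image h)) ∧
      κ * 𝔖 (dilate l (I.image h)) * (x / Real.log x ^ I.card) ≤ (count f l x (I.image h) : ℝ))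

open Pool.Agent.U288.RO Pool.Agent.H387R2.Uni

/-- For all `r`, `k`, `L ≥ 1` and `σ = 0, 1, -1` there are `κ, c > 0`, `C` and `B` such that for every `A`, all large
`x`, ALL colourings `f` of the natural numbers with `r` colours and all real `D` with
`log x (log log x) ^ B ≤ D ≤ (log x) ^ A`: there are at most `C D ^ k / (log D) ^ e` patterns up to `D`, `e` the number
of the conditions, and at least `c D ^ k / (log D) ^ e` of them are good for `f`. -/
theorem result :
    (∀ T : Finset ℕ, HasProd (fun p : Nat.Primes => loc T p) (𝔖 T)) ∧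
    ∀ (r k L : ℕ), 1 ≤ L → ∀ σ : ℤ, (σ = 0 ∨ σ = 1 ∨ σ = -1) →
      ∃ (κ c C : ℝ) (B : ℕ), 0 < κ ∧ 0 < c ∧ ∀ A : ℝ, ∃ X : ℝ, ∀ x : ℝ, X ≤ x → ∀ f : ℕ → Fin r, ∀ D : ℝ,
        Real.log x * Real.log (Real.log x) ^ B ≤ D → D ≤ Real.log x ^ A →
        c * (D ^ k / Real.log D ^ edges k σ) ≤ ((good f k σ L D x κ).card : ℝ) ∧
        ((patterns k σ D).card : ℝ) ≤ C * (D ^ k / Real.log D ^ edges k σ) := by
  classical
  refine ⟨fun T => CT_hasProd T, fun r k L hL σ hσ => ?_⟩
  obtain ⟨c, κ, t, C, hc, hκ, ht, hC, B, hmain⟩ := real_mainL r k σ hσ L hL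
  have he : (Pool.Agent.U288.SP.edg (Pool.Agent.U288.RO.csF k σ)).card = edges k σ := by
    rw [Pool.Agent.U288.SP.edg_const k σ]
    rfl
  rw [he] at hmain
  refine ⟨κ / Real.exp (2 * k * (((k : ℝ) + 1) ^ 2 * L + t)), c, C, B, by positivity, hc, fun A => ?_⟩
  obtain ⟨X, hX⟩ := eventually_atTop.1 ((hmain A).and ((real_subL r k L κ t hκ).and
    (eventually_ge_atTop (3 : ℝ))))
  refine ⟨X, fun x hx f D hD1 hD2 => ?_⟩
  obtain ⟨h1, h2, hx3⟩ := hX x hx
  obtain ⟨h3, h4⟩ := h1 f D hD1 hD2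
  refine ⟨h3.trans ?_, h4⟩
  rw [Nat.cast_le]
  apply card_le_card
  intro h hh
  have h5 := h2 f σ ⌊D⌋₊ h hh
  have h6 := (mem_goodRL.1 hh).1
  unfold good
  rw [mem_filter]
  refine ⟨?_, fun l hl0 hlL I hI => ⟨(h5 l hl0 hlL I hI).2.1, ?_⟩⟩
  · simp only [Pool.Agent.U288.SP.shifts, mem_filter] at h6
    simp only [patterns, mem_filter]
    exact h6
  · obtain ⟨_, h7, h8, h9⟩ := h5 l hl0 hlL I hI
    have h10 : κ / Real.exp (2 * k * (((k : ℝ) + 1) ^ 2 * L + t)) * 𝔖 (dilate l (I.image h)) ≤ κ := by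
      rw [div_mul_eq_mul_div, div_le_iff₀ (Real.exp_pos _)]
      exact mul_le_mul_of_nonneg_left h8 hκ.le
    have hlp : 0 < Real.log x := Real.log_pos (by linarith)
    calc κ / Real.exp (2 * k * (((k : ℝ) + 1) ^ 2 * L + t)) * 𝔖 (dilate l (I.image h)) * (x / Real.log x ^ I.card) ≤
        κ * (x / Real.log x ^ I.card) := mul_le_mul_of_nonneg_right h10 (by positivity)
      _ ≤ _ := by
          refine h9.trans (le_of_eq ?_)
          unfold cntL count
          congr!

end Pool.Agent.Results.MP_e87c7d_nt.EveryDilateAndReflection
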