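import Pool.Agent.U308.SG.Tup
import Pool.Agent.U308.SG.Smooth

/-!
# Prime tuples whose shifts are smooth numbers, or integers composed of the primes of a sparse set

The asymptotic formula of Hardy and Littlewood for almost all tuples of shifts `c i + κ i * v i`, where `v i` runs through
the `y i`-smooth numbers up to `x i ≍ N`, for every `y i ≥ log ^ (1 + δ) N` (then there can be as few as `N ^ (δ / (1 + δ))`
such numbers), and more generally through the integers composed of primes from an arbitrary set `P i` of primes
`≤ y i ≤ log ^ K N` with at least `y i ^ (1 / 2 + δ)` and at least `log ^ (1 + δ) N` elements.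

Definitions used: `Pool.Agent.H373R2.T7.singZ a z`: the partial product over the primes `p ≤ z` of
`(1 - ν(p) / p) / (1 - 1 / p) ^ (s + 1)`, where `ν(p)` is the number of `r < p` for which `p` divides
`r (r + a 1) ... (r + a s)`; `Pool.Agent.H373R2.T7.tupleCount a N`: the sum of
`log p * ∏ i, log (p + a i)` over the primes `p ≤ N` for which all `p + a i` are primes;
`Pool.Agent.H373R2.T7.Admissible a`: for every prime `p` there is an `r` such that `p` divides neither
`r` nor any `r + a i`; `Pool.Agent.H560R3.GB.primeTuples a N`: the number of primes `p ≤ N` for which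
all `p + a i` are primes.

Method (helper308): the weight `r(v)` is the number of the representations `v = m₁ m₂ w`, where `m₁` and `m₂` are products of
`h` different primes from one dyadic class of `P` which has more elements than the square root of the primes, and `w` is
composed of primes from `P`. For a frequency `θ` which is not very close to a rational number with a small denominator, for
almost all `w` the multiple `w θ` is well spaced (`Pool.Agent.U308.SH.chain`: the reduced denominators along the chain of the
partial products of the prime factors of `w`), and then the sum over `m₁` and `m₂` is small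
(`Pool.Agent.U308.SH.bilin`). The weight is at least `1 / log N` of its mean value for almost all `v`
(`Pool.Agent.U308.SG.structB`, by replacing prime factors from sparse classes with primes from dense classes). The passage
from one random shift to prime tuples is from the starting files (`Pool.Agent.N469.PT.Ws`, `Pool.Agent.W93`,
`Pool.Agent.TH890`).
-/

set_option autoImplicit false

namespace Pool.Agent.Results.MP_e87c7d_nt.SmoothShifts

open Finset Pool.Agent.H560R3.GB
open Pool.Agent.H373R2.T7 (singZ tupleCount Admissible)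

/-- The integers `1 ≤ v ≤ x` all of whose prime factors belong to `P`. -/
def composedOf (P : Finset ℕ) (x : ℕ) : Finset ℕ := (Icc 1 x).filter fun v => v.primeFactors ⊆ P

/-- The `y`-smooth integers `1 ≤ v ≤ x`: the integers all of whose prime factors are at most `y`. -/
def smooth (y x : ℕ) : Finset ℕ := (Icc 1 x).filter fun v => ∀ p ∈ v.primeFactors, p ≤ y

/-- The formula of Hardy and Littlewood for the shifts `a 1, ..., a s` and the primes up to `N`: the
singular series converges, its sum `S` predicts the weighted number of prime tuples with an error of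
at most `N / log ^ U N`, and, if the shifts are admissible, `S` is positive and `S N / log ^ (s + 1) N`
predicts the number of prime tuples with a relative error of at most `ε`. -/
def Holds {s : ℕ} (ε : ℝ) (U N : ℕ) (a : Fin s → ℕ) : Prop :=
  ∃ S : ℝ, Filter.Tendsto (fun z => singZ (fun i => (a i : ℤ)) z) Filter.atTop (nhds S) ∧
    |tupleCount (fun i => (a i : ℤ)) N - S * N| ≤ (N : ℝ) / Real.log N ^ U ∧
    (Admissible (fun i => (a i : ℤ)) → 0 < S ∧
      |(primeTuples a N : ℝ) - S * (N / Real.log N ^ (s + 1))| ≤ ε * (S * (N / Real.log N ^ (s + 1))))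

open Classical in
/-- Let `s ≥ 1`, `δ > 0`, `κ i ≥ 1` (`i < s`), `K`, `B`, `U`, `W` and `ε > 0` be fixed. Let `N` be large, let
`N / B ≤ x i ≤ N` and `y i ≤ log ^ K N`, and let `0 ≤ c i ≤ B N` be arbitrary integers.

(1) Let `P i` be arbitrary sets of primes which are at most `y i`, with at least `y i ^ (1 / 2 + δ)` and at least
`log ^ (1 + δ) N` elements. Then for all the vectors `(v 1, ..., v s)` of integers `v i ≤ x i` composed of primes from
`P i`, with the exception of a proportion of at most `1 / log ^ U N` of these vectors, the formula of Hardy and Littlewood for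
the primes `p ≤ N` and the tuple `p, p + c 1 + κ 1 * v 1 + t 1, ..., p + c s + κ s * v s + t s` holds for all the vectors
`(t 1, ..., t s)` of integers `0 ≤ t i ≤ log ^ W N` simultaneously.

(2) In particular this holds for all the vectors of `y i`-smooth numbers `v i ≤ x i`, with the exception of a proportion of
at most `1 / log ^ U N` of these vectors, if `y i ≥ log ^ (1 + δ) N`. -/
theorem result (s : ℕ) (hs : 1 ≤ s) (δ : ℝ) (hδ : 0 < δ) (κ : Fin s → ℕ) (hκ : ∀ i, 1 ≤ κ i) (K B U W : ℕ) (ε : ℝ) (hε : 0 < ε) :
    ∃ N₀ : ℕ, ∀ N, N₀ ≤ N → ∀ x y : Fin s → ℕ, (∀ i, x i ≤ N ∧ N ≤ B * x i ∧ (y i : ℝ) ≤ Real.log N ^ K) →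
      ∀ c : Fin s → ℕ, (∀ i, c i ≤ B * N) →
      (∀ P : Fin s → Finset ℕ, (∀ i, (∀ p ∈ P i, p.Prime ∧ p ≤ y i) ∧ (y i : ℝ) ^ (1 / 2 + δ) ≤ (P i).card ∧
          Real.log N ^ (1 + δ) ≤ (P i).card) →
        (((Fintype.piFinset fun i => composedOf (P i) (x i)).filter fun v =>
          ¬ ∀ t : Fin s → ℕ, (∀ i, (t i : ℝ) ≤ Real.log N ^ W) → Holds ε U N (fun i => c i + κ i * v i + t i)).card : ℝ) ≤
          (Fintype.piFinset fun i => composedOf (P i) (x i)).card / Real.log N ^ U) ∧
      ((∀ i, Real.log N ^ (1 + δ) ≤ y i) →
        (((Fintype.piFinset fun i => smooth (y i) (x i)).filter fun v =>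
          ¬ ∀ t : Fin s → ℕ, (∀ i, (t i : ℝ) ≤ Real.log N ^ W) → Holds ε U N (fun i => c i + κ i * v i + t i)).card : ℝ) ≤
          (Fintype.piFinset fun i => smooth (y i) (x i)).card / Real.log N ^ U) := by
  obtain ⟨δ', N1, hδ', h1⟩ := Pool.Agent.U308.SG.PR_cond2 δ hδ
  obtain ⟨N2, h2⟩ := Pool.Agent.U308.SG.tuples s hs δ hδ κ hκ K B U W ε hε
  obtain ⟨N3, h3⟩ := Pool.Agent.U308.SG.tuples s hs δ' hδ' κ hκ K B U W ε hε
  refine ⟨N1 + N2 + N3, fun N hN x y hxy c hc => ⟨fun P hP => ?_, fun hy => ?_⟩⟩
  · exact h2 N (by omega) P y x (fun i => ⟨(hxy i).1, (hxy i).2.1, (hP i).1, (hxy i).2.2, (hP i).2.1, (hP i).2.2⟩) c hc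
  · have e1 : (fun i => smooth (y i) (x i)) = fun i => Pool.Agent.N469.SM.SS (Pool.Agent.N469.SQ.PR (y i)) (x i) := by
      funext i
      exact Pool.Agent.U308.SG.smooth_eq (y i) (x i)
    rw [e1]
    exact h3 N (by omega) (fun i => Pool.Agent.N469.SQ.PR (y i)) y x (fun i => ⟨(hxy i).1, (hxy i).2.1,
      fun p hp => Pool.Agent.N469.SQ.mem_PR.1 hp, (hxy i).2.2, (h1 N (by omega) (y i) (hy i)).2.1, (h1 N (by omega) (y i) (hy i)).2.2⟩) c hc

end Pool.Agent.Results.MP_e87c7d_nt.SmoothShifts
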