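import Pool.Agent.U325.PT.Form

set_option autoImplicit false

/-!
# The parity barrier for prime `r`-tuples: all sieves, with the other numbers of the tuple known

All known results of sieve type on the prime `r`-tuples `n + h_1, ..., n + h_r` (Brun, Selberg, Chen,
Goldston-Pintz-Yıldırım, Maynard-Tao) rest on combinations `F(n)` of sums of `ρ(d_1, ..., d_r)` over all
`d_i ∣ n + h_i`, with real weights `ρ` of a level below `X`, and of products of such sums with given
functions: the indicator functions of the `n` for which one of the numbers `n + h_i` (in an inductive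
argument: several of them) is a prime, or a product of given primes (switching). The sum of `F(n)` over
`n ≤ X` is then computed from the distribution of these given functions in residue classes.

The theorem says that, for almost all vectors `h` of shifts `h_i ≤ X`, no argument of this kind shows that
there are prime tuples, for any weights of the level `X exp (-(log X) ^ δ)` and whatever is known on the
distribution of the given functions to all moduli up to this level. The given functions are arbitrary
bounded functions of `n`, of the divisors and of all the `h_i` except one (or more): one may know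
everything about `r - 1` of the numbers of the tuple, for instance that they are prime, and use a sieve of
the level `X ^ (1 - o(1))` for the last one.

Idea of the proof. Let `λ` be the function of Liouville. In the sum of `∏_{i ∈ I} λ(n + h_i) a(d, h, n)` over
the `n` with `d_i ∣ n + h_i`, where `a` does not depend on `h_j`, `j ∈ I`, all `h_i` but `h_j` are fixed; the
mean square over `h_j` is a sum of products of the autocorrelations of a function supported on one residue
class to the modulus `D`, the least common multiple of the other `d_i`, and of those of `λ` on the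
multiples of `d_j`, at the multiples of `[D, d_j]`. The latter are small on average over `D` by the large
sieve and the bound of Davenport. For given `d` there are few `h` for which the other conditions are
compatible.
-/

namespace Pool.Agent.Results.MP_e87c7d_nt.TupleParityBarrier

open Finset
open Pool.Agent.U325.PT (IsWeight comb)
open ArithmeticFunction (cardFactors)

/-- Let `r`, `A`, `C` be natural numbers and `δ > 0`. For all large `X`, all sets `S_k ≠ ∅`, `k ≤ K`,
`K ≤ (log X) ^ C`, of indices and all functions `a_k(d, h, n)` with values in `[-1, 1]` which do not depend on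
the `h_i`, `i ∈ S_k`, all vectors `h` of shifts `1 ≤ h_i ≤ X` but at most `X ^ r / (log X) ^ A` have the
following property. Let `F(n)` be the sum over `k` of `∑_{d_i ∣ n + h_i} ρ_k(d) a_k(d, h, n)`, with ANY sieve
weights `ρ_k` of level `X exp (-(log X) ^ δ)` (they may depend on `h`).
(0) If `I` meets all `S_k`, the sum of `(-1) ^ (∑_{i ∈ I} Ω(n + h_i)) F(n)` over `n ≤ X` is at most
`X / (log X) ^ A` in absolute value.
(1) If `F(n) ≤ 0` for all `n ≤ X` with `∑_i (Ω(n + h_i) + 1)` odd, then the sum of `F(n)` over `n ≤ X` is at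
most `X / (log X) ^ A`.
(2) If `F(n) ≥ 0` for all `n ≤ X`, and `F(n) ≥ 1` if all the `n + h_i` are prime, then the sum of `F(n)` is at
least twice the number of the `n ≤ X` for which all the `n + h_i` are prime, minus `X / (log X) ^ A`.
(3) If the `S_k` contain all the indices, then for every set `J` of indices the sum of `F(n)` over the
`n ≤ X` such that `Ω(n + h_i)` is even exactly for the `i ∈ J`, multiplied by `2 ^ r`, differs from the sum
of `F(n)` over all `n ≤ X` by at most `X / (log X) ^ A`. -/
theorem result (r A C : ℕ) (δ : ℝ) (hδ : 0 < δ) :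
    ∃ X₀ : ℕ, ∀ X : ℕ, X₀ ≤ X → ∀ (K : ℕ) (S : Fin K → Finset (Fin r))
      (a : Fin K → (Fin r → ℕ) → (Fin r → ℕ) → ℕ → ℝ), (K : ℝ) ≤ Real.log X ^ C → (∀ k, (S k).Nonempty) →
      (∀ k d h n, |a k d h n| ≤ 1) → (∀ k d h h' n, (∀ i, i ∉ S k → h i = h' i) → a k d h n = a k d h' n) →
    ∃ E : Finset (Fin r → ℕ), (E.card : ℝ) ≤ (X : ℝ) ^ r / Real.log X ^ A ∧
      ∀ h : Fin r → ℕ, (∀ i, 1 ≤ h i ∧ h i ≤ X) → h ∉ E →
      ∀ ρ : Fin K → (Fin r → ℕ) → ℝ, (∀ k, IsWeight C δ X (ρ k)) →
      (∀ I : Finset (Fin r), (∀ k, (I ∩ S k).Nonempty) →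
        |∑ n ∈ Icc 1 X, (-1 : ℝ) ^ (∑ i ∈ I, cardFactors (n + h i)) * comb a ρ h n| ≤ X / Real.log X ^ A) ∧
      ((∀ n ∈ Icc 1 X, Odd (∑ i, (cardFactors (n + h i) + 1)) → comb a ρ h n ≤ 0) →
        ∑ n ∈ Icc 1 X, comb a ρ h n ≤ X / Real.log X ^ A) ∧
      ((∀ n ∈ Icc 1 X, 0 ≤ comb a ρ h n) → (∀ n ∈ Icc 1 X, (∀ i, (n + h i).Prime) → 1 ≤ comb a ρ h n) →
        2 * (((Icc 1 X).filter fun n => ∀ i, (n + h i).Prime).card : ℝ) - X / Real.log X ^ A ≤
          ∑ n ∈ Icc 1 X, comb a ρ h n) ∧
      ((∀ k, S k = univ) → ∀ J : Finset (Fin r),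
        |2 ^ r * (∑ n ∈ (Icc 1 X).filter (fun n => ∀ i, (Even (cardFactors (n + h i)) ↔ i ∈ J)), comb a ρ h n) -
          ∑ n ∈ Icc 1 X, comb a ρ h n| ≤ X / Real.log X ^ A) := by
  obtain ⟨X₀, hX₀⟩ := Pool.Agent.U325.PT.few_tuple r (A + 1) C δ hδ
  refine ⟨X₀, fun X hX K S a hK hS ha hind => ?_⟩
  obtain ⟨hL1, hL2, hmain⟩ := hX₀ X hX
  obtain ⟨E, hE, hh⟩ := hmain K S a hK ha hind
  set L := Real.log X with hL
  have hL0 : 0 < L := by linarith
  have hAA : L ^ A ≤ L ^ (A + 1) := pow_le_pow_right₀ hL1 (by omega)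
  refine ⟨E, hE.trans (div_le_div_of_nonneg_left (by positivity) (by positivity) hAA), fun h hhX hhE ρ hρ => ?_⟩
  set B : ℝ := X / L ^ A with hB
  have hB2 : (X : ℝ) / L ^ (A + 1) ≤ B := div_le_div_of_nonneg_left (by positivity) (by positivity) hAA
  have h0' : ∀ I : Finset (Fin r), (∀ k, (I ∩ S k).Nonempty) →
      |∑ n ∈ Icc 1 X, (∏ i ∈ I, Pool.Agent.U325.PB.lam (n + h i)) * comb a ρ h n| ≤ X / L ^ (A + 1) := fun I hI =>
    (Pool.Agent.U325.PT.comb_bound S a ρ hρ h I hI).trans (hh h (Pool.Agent.U325.PT.mem_box.2 hhX) hhE)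
  have h0 : ∀ I : Finset (Fin r), (∀ k, (I ∩ S k).Nonempty) →
      |∑ n ∈ Icc 1 X, (-1 : ℝ) ^ (∑ i ∈ I, cardFactors (n + h i)) * comb a ρ h n| ≤ X / L ^ (A + 1) := by
    intro I hI
    refine le_trans (le_of_eq ?_) (h0' I hI)
    congr 1
    refine sum_congr rfl fun n _ => ?_
    unfold Pool.Agent.U325.PB.lam
    rw [prod_pow_eq_pow_sum]
  have huniv : ∀ k, ((univ : Finset (Fin r)) ∩ S k).Nonempty := fun k => by rw [univ_inter]; exact hS k
  -- the sign of the primes
  have hs : |∑ n ∈ Icc 1 X, (-1 : ℝ) ^ (∑ i, (cardFactors (n + h i) + 1)) * comb a ρ h n| ≤ B := by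
    refine le_trans (le_of_eq ?_) ((h0 univ huniv).trans hB2)
    have e1 : ∑ n ∈ Icc 1 X, (-1 : ℝ) ^ (∑ i, (cardFactors (n + h i) + 1)) * comb a ρ h n =
        (-1) ^ r * ∑ n ∈ Icc 1 X, (-1 : ℝ) ^ (∑ i, cardFactors (n + h i)) * comb a ρ h n := by
      rw [mul_sum]
      refine sum_congr rfl fun n _ => ?_
      rw [sum_add_distrib, sum_const, card_univ, Fintype.card_fin, smul_eq_mul, mul_one, pow_add]
      ring
    rw [e1, abs_mul, abs_pow, abs_neg, abs_one, one_pow, one_mul]
  obtain ⟨-, hup⟩ := abs_le.1 hs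
  refine ⟨fun I hI => (h0 I hI).trans hB2, fun h1 => ?_, fun h1 h2 => ?_, fun hall J => ?_⟩
  · -- lower bounds
    have h3 : ∑ n ∈ Icc 1 X, comb a ρ h n ≤
        ∑ n ∈ Icc 1 X, (-1 : ℝ) ^ (∑ i, (cardFactors (n + h i) + 1)) * comb a ρ h n := by
      refine sum_le_sum fun n hn => ?_
      rcases Nat.even_or_odd (∑ i, (cardFactors (n + h i) + 1)) with he | ho
      · rw [he.neg_one_pow, one_mul]
      · rw [ho.neg_one_pow]
        have := h1 n hn ho
        linarith
    exact h3.trans hup
  · -- upper bounds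
    have h3 : 2 * (((Icc 1 X).filter fun n => ∀ i, (n + h i).Prime).card : ℝ) ≤
        ∑ n ∈ Icc 1 X, (comb a ρ h n + (-1 : ℝ) ^ (∑ i, (cardFactors (n + h i) + 1)) * comb a ρ h n) := by
      have e1 : 2 * (((Icc 1 X).filter fun n => ∀ i, (n + h i).Prime).card : ℝ) =
          ∑ n ∈ Icc 1 X, if ∀ i, (n + h i).Prime then (2 : ℝ) else 0 := by
        rw [← sum_filter, sum_const, nsmul_eq_mul]
        ring
      rw [e1]
      refine sum_le_sum fun n hn => ?_
      have hF := h1 n hn
      by_cases hp : ∀ i, (n + h i).Prime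
      · rw [if_pos hp]
        have hF1 := h2 n hn hp
        have e2 : Even (∑ i, (cardFactors (n + h i) + 1)) := by
          rw [sum_congr rfl fun i _ => by rw [ArithmeticFunction.cardFactors_apply_prime (hp i)], sum_const, smul_eq_mul]
          exact (by decide : Even (1 + 1)).mul_left _
        rw [e2.neg_one_pow]
        linarith
      · rw [if_neg hp]
        rcases neg_one_pow_eq_or ℝ (∑ i, (cardFactors (n + h i) + 1)) with h4 | h4 <;> rw [h4] <;> linarith
    rw [sum_add_distrib] at h3
    linarith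
  · -- patterns
    have h3 := Pool.Agent.U325.PT.pattern_sum J h X (comb a ρ h) (X / L ^ (A + 1)) (by positivity)
      (fun I hI => h0' I fun k => by rw [hall k, inter_univ]; exact hI)
    refine h3.trans ?_
    rw [hB, pow_succ L A, mul_div_assoc', div_le_div_iff₀ (by positivity) (by positivity)]
    calc 2 ^ r * (X : ℝ) * L ^ A ≤ L * X * L ^ A := by gcongr
      _ = X * (L ^ A * L) := by ring

end Pool.Agent.Results.MP_e87c7d_nt.TupleParityBarrier
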