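import Mathlib
import Pool.Agent.U462.Sh.ZPat

set_option autoImplicit false

/-!
# The cases of the uniform Hardy–Littlewood conjecture are independent of each other

For every finite family of linear patterns there is a set of natural numbers without small prime factors
in which none of the patterns occurs and for which the Hardy–Littlewood law holds, with an error term of
the classical quality, uniformly for all systems of linear forms with large coefficients which do not
contain one of the patterns, and in all short intervals.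
-/

namespace Pool.Agent.Results.MP_e87c7d_nt.UniformIndependence

open Finset Filter
open scoped Topology
open Pool.Agent.U462.Sh.Law

/-- The family `H` of finite sets is sparse: for every `ε > 0`, if `M` is large and `n ≥ M`, then the
numbers `m ≥ M` which lie together with `n` in a member of `H` have `∑ 1 / √(log m) ≤ ε`. -/
def Sparse (H : Set (Finset ℕ)) : Prop :=
  ∀ ε : ℝ, 0 < ε → ∃ M : ℕ, ∀ n : ℕ, M ≤ n → ∀ F : Finset ℕ,
    (∀ m ∈ F, M ≤ m ∧ ∃ e ∈ H, n ∈ e ∧ m ∈ e) → ∑ m ∈ F, 1 / Real.sqrt (Real.log m) ≤ ε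

/-- **The cases of the uniform Hardy–Littlewood conjecture are independent of each other.**
(1) For every finite family of patterns `P` (finite sets of linear forms `a t + b` with `a ≥ 1`, one of them
the form `t`) there is a set `S` of rough numbers `≥ 2` such that for no member `P` of the family and no
natural number `t` all values at `t` of the forms of `P` lie in `S`, while the uniform Hardy–Littlewood law
holds for `S` and all systems of linear forms which do not contain the forms `l(l₀)`, `l ∈ P`, for a member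
`P` of the family and a linear form `l₀`.
(2) For every sparse family `H` of nonempty finite sets there is a set `S` of rough numbers `≥ 2` which
contains no member of `H`, while for every `C` the uniform Hardy–Littlewood law holds for `S` and all systems
of linear forms whose values contain a member of `H` for at most `C √(v - u)` of the `n` with `u ≤ n < v`,
for all `u < v`. -/
theorem result :
    (∀ Ps : Finset (Finset (ℤ × ℤ)), (∀ P ∈ Ps, ((1, 0) : ℤ × ℤ) ∈ P ∧ ∀ l ∈ P, 1 ≤ l.1) → ∃ S : Set ℕ,
      (∀ m ∈ S, 2 ≤ m ∧ Rough m) ∧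
      (∀ P ∈ Ps, ∀ t : ℕ, ¬ ∀ l ∈ P, ∃ m ∈ S, (m : ℤ) = l.1 * t + l.2) ∧
      Law S (fun L => ∀ P ∈ Ps, ¬ ∃ l₀ ∈ L, ∀ l ∈ P, (l.1 * l₀.1, l.1 * l₀.2 + l.2) ∈ L)) ∧
    (∀ H : Set (Finset ℕ), ∅ ∉ H → Sparse H → ∃ S : Set ℕ,
      (∀ m ∈ S, 2 ≤ m ∧ Rough m) ∧ (∀ e ∈ H, ¬ ∀ m ∈ e, m ∈ S) ∧
      ∀ C : ℝ, Law S (fun L => ∀ u v : ℕ, u < v →
        (({n : ℕ | u ≤ n ∧ n < v ∧ ∃ e ∈ H, ∀ m ∈ e, ∃ l ∈ L, value l n = m}.ncard : ℕ) : ℝ) ≤
          C * Real.sqrt ((v : ℝ) - u))) := by
  refine ⟨fun Ps h => Pool.Agent.U462.Sh.pat Ps h, ?_⟩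
  intro H h0 hsp
  obtain ⟨S, h1, h2, h3⟩ := Pool.Agent.U462.Sh.law_of (fun e => e ∈ H) h0 hsp
  refine ⟨S, h1, h2, ?_⟩
  intro C
  apply h3
  intro k c _ δ hδ
  obtain ⟨X0, hX0⟩ := Pool.Agent.U462.Sh.sqrt_small C c δ hδ
  refine ⟨X0, ?_⟩
  intro X hX L _ _ _ hgood u v huv _ hlen _
  exact (hgood u v huv).trans (hX0 X hX u v hlen)

end Pool.Agent.Results.MP_e87c7d_nt.UniformIndependence
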